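import Pool.Agent.Helper59.Pack.Section

/-!
# The column lemma
-/

set_option autoImplicit false
namespace Pool.Agent.Helper33.SY
open MeasureTheory Metric
open Pool.Agent.Helper59.Pack Pool.Agent.Helper69.MD
open scoped ENNReal

/-- The primitive points of the lattice generated by `t₁`, `t₂` in the set `A`. -/
def prim (t₁ t₂ : P2) (A : Set P2) : Set (ℤ × ℤ) :=
  {p | IsCoprime p.1 p.2 ∧ (p.1 : ℝ) • t₁ + (p.2 : ℝ) • t₂ ∈ A}

theorem deltaL_ge_of {K : Set E3} (hK : IsConvexBody K) (d : LatData)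
    (h : ∀ u ∈ d.lat, u ≠ 0 → ∀ x ∈ interior K, ∀ y ∈ interior K, x - y ≠ u) :
    volume K / ENNReal.ofReal (d.H * det2 d.t₁ d.t₂) ≤ deltaL K := by
  rw [deltaL_eq hK, ← d.covolume]
  have h : Conf K sU d.lat (fun _ => (0 : E3)) := by
    rintro ⟨⟩ ⟨⟩ u hu hne z h1 h2
    have hu0 : u ≠ 0 := by
      rcases hne with h | h
      · exact absurd rfl h
      · exact h
    have h1' : z ∈ interior K := by simpa [sU] using h1
    have h2' : z - u ∈ interior K := by simpa [sU] using h2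
    exact h u hu hu0 z h1' (z - u) h2' (by abel)
  have := le_dg d.lat h
  simpa using this

/-- Proportional primitive vectors. -/
theorem prim_pm {p q : ℤ × ℤ} (hp : IsCoprime p.1 p.2) (hq : IsCoprime q.1 q.2)
    (h : p.1 * q.2 = p.2 * q.1) : q = p ∨ q = -p := by
  obtain ⟨u, v, huv⟩ := hp
  obtain ⟨u', v', huv'⟩ := hq
  set c : ℤ := u * q.1 + v * q.2 with hc
  have h1 : q.1 = c * p.1 := by
    rw [hc]
    linear_combination q.1 * (-1 : ℤ) * huv - v * h + 0 * huv'
  have h2 : q.2 = c * p.2 := by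
    rw [hc]
    linear_combination q.2 * (-1 : ℤ) * huv + u * h
  have h3 : c * (u' * p.1 + v' * p.2) = 1 := by
    have : u' * (c * p.1) + v' * (c * p.2) = 1 := by rw [← h1, ← h2]; exact huv'
    linear_combination this
  rcases Int.isUnit_iff.1 (IsUnit.of_mul_eq_one _ h3) with h4 | h4
  · left
    apply Prod.ext
    · rw [h1, h4, one_mul]
    · rw [h2, h4, one_mul]
  · right
    apply Prod.ext
    · rw [h1, h4]; simp
    · rw [h2, h4]; simp

section
variable {C : Set E3} (hC : IsConvexBody C) (hsymm : ∀ x ∈ C, -x ∈ C)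
include hC hsymm

omit hC in
theorem neg_interior {x : E3} (hx : x ∈ interior C) : -x ∈ interior C := by
  have h2 : (Homeomorph.neg E3) ⁻¹' interior C = interior ((Homeomorph.neg E3) ⁻¹' C) :=
    (Homeomorph.neg E3).preimage_interior C
  have h3 : (Homeomorph.neg E3) ⁻¹' C = C := by
    ext y
    exact ⟨fun h => by simpa using hsymm _ h, fun h => hsymm _ h⟩
  rw [h3] at h2
  have h4 : x ∈ (Homeomorph.neg E3) ⁻¹' interior C := by rw [h2]; exact hx
  exact h4

omit hC in
theorem neg_proj {y : P2} (hy : y ∈ proj C) : -y ∈ proj C := by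
  obtain ⟨x, hx, rfl⟩ := hy
  refine ⟨-x, hsymm x hx, ?_⟩
  apply P2_ext <;> simp

theorem len_neg_le (y : P2) : len C (-y) ≤ len C y := by
  by_cases h : -y ∈ proj C
  · obtain ⟨a, b, -, ha, hb, hl⟩ := len_mem hC h
    have ha' : mk3 y (-a) ∈ C := by
      have := hsymm _ ha
      have e : -mk3 (-y) a = mk3 y (-a) := by apply E3_ext <;> simp
      rwa [e] at this
    have hb' : mk3 y (-b) ∈ C := by
      have := hsymm _ hb
      have e : -mk3 (-y) b = mk3 y (-b) := by apply E3_ext <;> simp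
      rwa [e] at this
    have := len_ge hC hb' ha'
    linarith
  · rw [len_off h]
    exact len_nonneg C y

theorem len_neg (y : P2) : len C (-y) = len C y := by
  apply le_antisymm (len_neg_le hC hsymm y)
  have := len_neg_le hC hsymm (-y)
  rwa [neg_neg] at this

/-- A phase for one column. -/
theorem phase {M : ℝ} (hM0 : 0 < M) {y : P2} (hy : len C y ≤ M) :
    ∃ ζ : ℝ, (∀ k : ℤ, ∀ x ∈ interior C, pr x = y → x 2 ≠ ζ + k * M) ∧
      ∀ k : ℤ, ∀ x ∈ interior C, pr x = -y → x 2 ≠ -ζ + k * M := by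
  obtain ⟨a, b, -, hl, hab⟩ := len_spec hC y
  have key : ∀ k : ℤ, ∀ x ∈ interior C, pr x = y → x 2 ≠ b + k * M := by
    intro k x hx hxy h
    obtain ⟨h1, h2⟩ := hab x hx hxy
    rw [h] at h1 h2
    have h3 : (k : ℝ) * M < 0 := by linarith
    have h4 : (k : ℝ) < 0 := by
      by_contra h5
      push Not at h5
      have := mul_nonneg h5 hM0.le
      linarith
    have h5 : k ≤ -1 := by
      have : k < 0 := by exact_mod_cast h4
      omega
    have h6 : (k : ℝ) ≤ -1 := by exact_mod_cast h5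
    have h7 := mul_le_mul_of_nonneg_right h6 hM0.le
    linarith
  refine ⟨b, key, ?_⟩
  intro k x hx hxy h
  have h1 := neg_interior hsymm hx
  refine key (-k) (-x) h1 ?_ ?_
  · have : pr (-x) = -pr x := by apply P2_ext <;> simp
    rw [this, hxy, neg_neg]
  · rw [PiLp.neg_apply, h]
    push_cast
    ring

omit hC hsymm in
/-- Two primitive pairs. -/
theorem two_pairs {S : Set (ℤ × ℤ)} (hfin : S.Finite) (hcop : ∀ p ∈ S, IsCoprime p.1 p.2)
    (hneg : ∀ p ∈ S, -p ∈ S) (hcard : S.ncard < 6) :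
    S = ∅ ∨ (∃ p ∈ S, ∀ r ∈ S, r = p ∨ r = -p) ∨
      ∃ p ∈ S, ∃ q ∈ S, p.1 * q.2 ≠ p.2 * q.1 ∧ ∀ r ∈ S, r = p ∨ r = -p ∨ r = q ∨ r = -q := by
  have hne : ∀ p ∈ S, p ≠ -p := by
    intro p hp h
    have h0 := hcop p hp
    have h1 : p.1 = -p.1 := congrArg Prod.fst h
    have h2 : p.2 = -p.2 := congrArg Prod.snd h
    have h3 : p.1 = 0 := by omega
    have h4 : p.2 = 0 := by omega
    rw [h3, h4] at h0
    exact not_isCoprime_zero_zero h0
  rcases S.eq_empty_or_nonempty with h | ⟨p, hp⟩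
  · exact Or.inl h
  right
  by_cases h1 : ∀ r ∈ S, r = p ∨ r = -p
  · exact Or.inl ⟨p, hp, h1⟩
  right
  push Not at h1
  obtain ⟨q, hq, hqp, hqp'⟩ := h1
  refine ⟨p, hp, q, hq, ?_, ?_⟩
  · intro h
    rcases prim_pm (hcop p hp) (hcop q hq) h with h | h
    · exact hqp h
    · exact hqp' h
  · intro r hr
    by_contra hcon
    push Not at hcon
    obtain ⟨r1, r2, r3, r4⟩ := hcon
    have hsub : (({p, -p, q, -q, r, -r} : Finset (ℤ × ℤ)) : Set (ℤ × ℤ)) ⊆ S := by
      intro z hz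
      simp only [Finset.coe_insert, Finset.coe_singleton, Set.mem_insert_iff, Set.mem_singleton_iff] at hz
      rcases hz with rfl | rfl | rfl | rfl | rfl | rfl
      exacts [hp, hneg _ hp, hq, hneg _ hq, hr, hneg _ hr]
    have h2 := Set.ncard_le_ncard hsub hfin
    rw [Set.ncard_coe_finset] at h2
    have hpp := hne p hp
    have hqq := hne q hq
    have hrr := hne r hr
    have n1 : ∀ {x y : ℤ × ℤ}, x ≠ y → -x ≠ -y := fun h h' => h (neg_injective h')
    have n2 : ∀ {x y : ℤ × ℤ}, x ≠ -y → -x ≠ y := fun h h' => h (by rw [← h', neg_neg])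
    have h3 : ({p, -p, q, -q, r, -r} : Finset (ℤ × ℤ)).card = 6 := by
      rw [Finset.card_insert_of_notMem, Finset.card_insert_of_notMem, Finset.card_insert_of_notMem,
        Finset.card_insert_of_notMem, Finset.card_insert_of_notMem, Finset.card_singleton]
      · simpa using hrr
      · simp only [Finset.mem_insert, Finset.mem_singleton, not_or]
        exact ⟨fun h => r4 h.symm, fun h => r3 (neg_injective h).symm⟩
      · simp only [Finset.mem_insert, Finset.mem_singleton, not_or]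
        exact ⟨hqq, Ne.symm r3, fun h => r4 (by rw [h, neg_neg])⟩
      · simp only [Finset.mem_insert, Finset.mem_singleton, not_or]
        exact ⟨fun h => hqp' h.symm, fun h => hqp (neg_injective h).symm, fun h => r2 h.symm,
          fun h => r1 (neg_injective h).symm⟩
      · simp only [Finset.mem_insert, Finset.mem_singleton, not_or]
        exact ⟨hpp, fun h => hqp h.symm, fun h => hqp' (by rw [h, neg_neg]), fun h => r1 h.symm,
          fun h => r2 (by rw [h, neg_neg])⟩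
    omega

omit hC hsymm in
theorem neg_prim {t₁ t₂ : P2} {A : Set P2} (hA : ∀ y ∈ A, -y ∈ A) {p : ℤ × ℤ} (hp : p ∈ prim t₁ t₂ A) :
    -p ∈ prim t₁ t₂ A := by
  refine ⟨?_, ?_⟩
  · exact hp.1.neg_neg
  · have := hA _ hp.2
    convert this using 1
    simp only [Prod.fst_neg, Prod.snd_neg, Int.cast_neg, neg_smul]
    abel

/-- The heights of the generators. -/
theorem exists_heights {M : ℝ} (hM0 : 0 < M) {t₁ t₂ : P2}
    (hfin : (prim t₁ t₂ (proj C)).Finite) (hcard : (prim t₁ t₂ (proj C)).ncard < 6)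
    (hlen : ∀ p ∈ prim t₁ t₂ (proj C), len C ((p.1 : ℝ) • t₁ + (p.2 : ℝ) • t₂) ≤ M) :
    ∃ τ₁ τ₂ : ℝ, ∀ p ∈ prim t₁ t₂ (proj C), ∀ k : ℤ, ∀ x ∈ interior C,
      pr x = (p.1 : ℝ) • t₁ + (p.2 : ℝ) • t₂ → x 2 ≠ p.1 * τ₁ + p.2 * τ₂ + k * M := by
  have hneg : ∀ p ∈ prim t₁ t₂ (proj C), -p ∈ prim t₁ t₂ (proj C) := fun p hp =>
    neg_prim (fun y hy => neg_proj hsymm hy) hp
  have eneg : ∀ p : ℤ × ℤ, (((-p).1 : ℤ) : ℝ) • t₁ + (((-p).2 : ℤ) : ℝ) • t₂ =
      -((p.1 : ℝ) • t₁ + (p.2 : ℝ) • t₂) := by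
    intro p
    simp only [Prod.fst_neg, Prod.snd_neg, Int.cast_neg, neg_smul]
    abel
  rcases two_pairs hfin (fun p hp => hp.1) hneg hcard with h | ⟨p, hp, h⟩ | ⟨p, hp, q, hq, hpq, h⟩
  · refine ⟨0, 0, fun p hp => ?_⟩
    rw [h] at hp
    exact absurd hp (Set.notMem_empty _)
  · obtain ⟨ζ, z1, z2⟩ := phase hC hsymm hM0 (hlen p hp)
    obtain ⟨u, v, huv⟩ := hp.1
    have huv' : (u : ℝ) * p.1 + v * p.2 = 1 := by exact_mod_cast huv
    refine ⟨ζ * u, ζ * v, fun r hr k x hx hxr => ?_⟩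
    rcases h r hr with rfl | rfl
    · have e : (r.1 : ℝ) * (ζ * u) + r.2 * (ζ * v) = ζ := by linear_combination ζ * huv'
      rw [e]
      exact z1 k x hx hxr
    · have e : (((-p).1 : ℤ) : ℝ) * (ζ * u) + (((-p).2 : ℤ) : ℝ) * (ζ * v) = -ζ := by
        simp only [Prod.fst_neg, Prod.snd_neg, Int.cast_neg]
        linear_combination (-ζ) * huv'
      rw [e]
      exact z2 k x hx (by rw [hxr, eneg])
  · obtain ⟨ζ, z1, z2⟩ := phase hC hsymm hM0 (hlen p hp)
    obtain ⟨ξ, x1, x2⟩ := phase hC hsymm hM0 (hlen q hq)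
    have hD : (p.1 : ℝ) * q.2 - p.2 * q.1 ≠ 0 := by
      intro h'
      apply hpq
      have : (p.1 : ℝ) * q.2 = p.2 * q.1 := by linarith
      exact_mod_cast this
    set Δ : ℝ := (p.1 : ℝ) * q.2 - p.2 * q.1 with hΔ
    refine ⟨(ζ * q.2 - ξ * p.2) / Δ, (ξ * p.1 - ζ * q.1) / Δ, fun r hr k x hx hxr => ?_⟩
    have ep : (p.1 : ℝ) * ((ζ * q.2 - ξ * p.2) / Δ) + p.2 * ((ξ * p.1 - ζ * q.1) / Δ) = ζ := by
      field_simp
      rw [hΔ]
      ring
    have eq : (q.1 : ℝ) * ((ζ * q.2 - ξ * p.2) / Δ) + q.2 * ((ξ * p.1 - ζ * q.1) / Δ) = ξ := by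
      field_simp
      rw [hΔ]
      ring
    rcases h r hr with rfl | rfl | rfl | rfl
    · rw [ep]
      exact z1 k x hx hxr
    · have e : (((-p).1 : ℤ) : ℝ) * ((ζ * q.2 - ξ * p.2) / Δ) +
          (((-p).2 : ℤ) : ℝ) * ((ξ * p.1 - ζ * q.1) / Δ) = -ζ := by
        simp only [Prod.fst_neg, Prod.snd_neg, Int.cast_neg]
        linear_combination (-1 : ℝ) * ep
      rw [e]
      exact z2 k x hx (by rw [hxr, eneg])
    · rw [eq]
      exact x1 k x hx hxr
    · have e : (((-q).1 : ℤ) : ℝ) * ((ζ * q.2 - ξ * p.2) / Δ) +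
          (((-q).2 : ℤ) : ℝ) * ((ξ * p.1 - ζ * q.1) / Δ) = -ξ := by
        simp only [Prod.fst_neg, Prod.snd_neg, Int.cast_neg]
        linear_combination (-1 : ℝ) * eq
      rw [e]
      exact x2 k x hx (by rw [hxr, eneg])

end

/-- **The column lemma.** -/
theorem column {K C : Set E3} (hK : IsConvexBody K) (hC : IsConvexBody C) (hsymm : ∀ x ∈ C, -x ∈ C)
    (hsub : ∀ x ∈ interior K, ∀ y ∈ interior K, x - y ∈ interior C)
    {M : ℝ} (hM : len C 0 = 2 * M) (hM0 : 0 < M) {t₁ t₂ : P2} (hdet : 0 < det2 t₁ t₂)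
    (hfin : (prim t₁ t₂ (proj C)).Finite)
    (hcount : (prim t₁ t₂ (proj C)).ncard + 2 * (prim t₁ t₂ {y | M < len C y}).ncard < 6) :
    volume K / ENNReal.ofReal (M * det2 t₁ t₂) ≤ deltaL K := by
  have hHN : {y | M < len C y} ⊆ proj C := by
    intro y hy
    by_contra h
    have h1 : M < len C y := hy
    rw [len_off h] at h1
    linarith
  have hprim : prim t₁ t₂ {y | M < len C y} ⊆ prim t₁ t₂ (proj C) := fun p hp => ⟨hp.1, hHN hp.2⟩
  have h0 : (0 : P2) ∈ proj C := by
    by_contra h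
    rw [len_off h] at hM
    linarith
  -- no primitive point in `H`
  have hH : ∀ p, p ∉ prim t₁ t₂ {y | M < len C y} := by
    intro p hp
    have hnp : -p ∈ prim t₁ t₂ {y | M < len C y} := neg_prim (fun y hy => by
      change M < len C (-y)
      rw [len_neg hC hsymm]
      exact hy) hp
    have hne : p ≠ -p := by
      intro h
      have h0 := hp.1
      have h1 : p.1 = -p.1 := congrArg Prod.fst h
      have h2 : p.2 = -p.2 := congrArg Prod.snd h
      have h3 : p.1 = 0 := by omega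
      have h4 : p.2 = 0 := by omega
      rw [h3, h4] at h0
      exact not_isCoprime_zero_zero h0
    have hsub2 : ({p, -p} : Set (ℤ × ℤ)) ⊆ prim t₁ t₂ {y | M < len C y} := by
      rintro z (rfl | rfl)
      · exact hp
      · exact hnp
    have h1 := Set.ncard_le_ncard hsub2 (hfin.subset hprim)
    have h2 := Set.ncard_le_ncard (hsub2.trans hprim) hfin
    rw [Set.ncard_pair hne] at h1 h2
    omega
  obtain ⟨τ₁, τ₂, hτ⟩ := exists_heights hC hsymm hM0 hfin (by omega) (fun p hp => by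
    by_contra h
    push Not at h
    exact hH p ⟨hp.1, h⟩)
  let d : LatData := ⟨t₁, t₂, τ₁, τ₂, M, hdet, hM0⟩
  refine deltaL_ge_of hK d fun u hu hu0 x hx y hy hxy => ?_
  have huC : u ∈ interior C := by
    rw [← hxy]
    exact hsub x hx y hy
  obtain ⟨m, n, k, h1, h2⟩ := d.mem hu
  by_cases hmn : m = 0 ∧ n = 0
  · obtain ⟨rfl, rfl⟩ := hmn
    have hpr : pr u = 0 := by rw [h1]; simp
    have h2' : u 2 = k * M := by rw [h2]; simp [d]
    -- the chord over `0`
    obtain ⟨a, b, -, hl, hab⟩ := len_spec hC 0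
    have hu1 := hab u huC hpr
    have hpr' : pr (-u) = 0 := by
      have : pr (-u) = -pr u := by apply P2_ext <;> simp
      rw [this, hpr, neg_zero]
    have hu2 := hab (-u) (neg_interior hsymm huC) hpr'
    rw [PiLp.neg_apply] at hu2
    have hk : k ≠ 0 := by
      rintro rfl
      apply hu0
      apply E3_ext
      · have := congrFun hpr 0
        simpa using this
      · have := congrFun hpr 1
        simpa using this
      · rw [h2']; simp
    have h3 : |(k : ℝ) * M| < M := by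
      rw [hM] at hl
      rw [← h2', abs_lt]
      constructor <;> linarith [hu1.1, hu1.2, hu2.1, hu2.2]
    have h9 : (1 : ℝ) ≤ |(k : ℝ)| := by exact_mod_cast Int.one_le_abs hk
    rw [abs_mul, abs_of_pos hM0] at h3
    have := mul_le_mul_of_nonneg_right h9 hM0.le
    linarith
  · -- primitive part
    have hg : 0 < Int.gcd m n := by
      rw [Nat.pos_iff_ne_zero]
      intro h
      exact hmn (Int.gcd_eq_zero_iff.1 h)
    obtain ⟨m', n', hcop, hm, hn⟩ : ∃ m' n' : ℤ, IsCoprime m' n' ∧ m = m' * (Int.gcd m n : ℤ) ∧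
        n = n' * (Int.gcd m n : ℤ) := by
      obtain ⟨m', n', h3, h4, h5⟩ := Int.exists_gcd_one hg
      exact ⟨m', n', Int.isCoprime_iff_gcd_eq_one.2 h3, h4, h5⟩
    set g : ℕ := Int.gcd m n with hgdef
    have hgR : (0 : ℝ) < g := by exact_mod_cast hg
    have hprC : pr u ∈ proj C := ⟨u, interior_subset huC, rfl⟩
    have e1 : pr u = (g : ℝ) • ((m' : ℝ) • t₁ + (n' : ℝ) • t₂) := by
      rw [h1]
      have e2 : (m : ℝ) = g * m' := by
        rw [hm]
        push_cast
        ring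
      have e3 : (n : ℝ) = g * n' := by
        rw [hn]
        push_cast
        ring
      rw [e2, e3, smul_add, smul_smul, smul_smul]
    rcases Nat.lt_or_ge 1 g with h2g | h1g
    · -- a proper multiple
      apply hH (m', n')
      refine ⟨hcop, ?_⟩
      change M < len C ((m' : ℝ) • t₁ + (n' : ℝ) • t₂)
      have hg2 : (2 : ℝ) ≤ g := by exact_mod_cast h2g
      have w1 : (0 : ℝ) ≤ 1 - 1 / g := by
        rw [sub_nonneg, div_le_one hgR]
        linarith
      have w2 : (0 : ℝ) ≤ 1 / g := by positivity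
      have h3 := (len_concave hC).2 h0 hprC w1 w2 (by ring)
      rw [smul_zero, zero_add, e1, smul_smul, one_div_mul_cancel hgR.ne', one_smul, hM] at h3
      obtain ⟨a, b, -, hl, hab⟩ := len_spec hC (pr u)
      have h4 := hab u huC rfl
      rw [e1] at hl
      simp only [smul_eq_mul] at h3
      have h5 : 0 < 1 / (g : ℝ) * len C ((g : ℝ) • ((m' : ℝ) • t₁ + (n' : ℝ) • t₂)) := by
        refine mul_pos (by positivity) ?_
        rw [hl]
        linarith [h4.1, h4.2]
      have h6 : (1 : ℝ) / g ≤ 1 / 2 := one_div_le_one_div_of_le (by norm_num) hg2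
      have h7 : M ≤ (1 - 1 / (g : ℝ)) * (2 * M) := by nlinarith
      linarith
    · have hg1 : g = 1 := le_antisymm h1g hg
      rw [hg1] at hm hn e1
      simp only [Nat.cast_one, mul_one, one_smul] at hm hn e1
      subst hm
      subst hn
      exact hτ (m, n) ⟨hcop, by change _ ∈ proj C; rw [← e1]; exact hprC⟩ k u huC e1 h2

end Pool.Agent.Helper33.SY
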