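import Pool.Agent.Helper33.SY.Ray

/-!
# The estimate in one direction
-/

set_option autoImplicit false
namespace Pool.Agent.Helper33.SY
open MeasureTheory Metric
open Pool.Agent.Helper59.Pack Pool.Agent.Helper69.MD
open scoped ENNReal

/-- The integrand `3 - 2 l` where `l > 1`, `l ^ 4` where `l ≤ 1` (`l = t / M`). -/
noncomputable def psi (M t : ℝ) : ℝ := if M < t then 3 - 2 * (t / M) else (t / M) ^ 4

theorem measurable_psi (M : ℝ) : Measurable (psi M) := by
  unfold psi
  refine Measurable.ite (measurableSet_lt measurable_const measurable_id) ?_ ?_ <;> fun_prop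

theorem integrable_psi {D : Set E3} (hD : IsConvexBody D) {M : ℝ} (hM0 : 0 < M) :
    Integrable fun y => psi M (len D y) := by
  obtain ⟨C, hC⟩ := len_bounded hD
  refine integrable_comp hD (measurable_psi M) ?_ (C := 3 + 2 * (C / M) + (C / M) ^ 4) ?_
  · unfold psi
    rw [if_neg (not_lt.2 hM0.le)]
    simp
  · intro y
    have h0 : 0 ≤ len D y / M := div_nonneg (len_nonneg D y) hM0.le
    have h1 : len D y / M ≤ C / M := div_le_div_of_nonneg_right (hC y) hM0.le
    have h2 : (len D y / M) ^ 4 ≤ (C / M) ^ 4 := pow_le_pow_left₀ h0 h1 4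
    have h3 : 0 ≤ (len D y / M) ^ 4 := by positivity
    unfold psi
    split_ifs
    · rw [abs_le]
      constructor <;> linarith
    · rw [abs_of_nonneg h3]
      linarith

theorem measurableSet_H {D : Set E3} (hD : IsConvexBody D) (M : ℝ) :
    MeasurableSet {y | M < len D y} := measurableSet_lt measurable_const (measurable_len hD)

theorem H_subset {D : Set E3} {M : ℝ} (hM0 : 0 < M) : {y | M < len D y} ⊆ proj D := by
  intro y hy
  by_contra h
  have h1 : M < len D y := hy
  rw [len_off h] at h1
  linarith

theorem H_fin {D : Set E3} (hD : IsConvexBody D) {M : ℝ} (hM0 : 0 < M) :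
    volume {y | M < len D y} ≠ ⊤ :=
  ne_top_of_le_ne_top (proj_compact hD).measure_lt_top.ne (measure_mono (H_subset hM0))

open Classical in
/-- If `n + 2 h` is larger than `2 vol D / M` then the integral of `psi` is positive. -/
theorem dir_pos {D : Set E3} (hD : IsConvexBody D) {M : ℝ} (hM : len D 0 = 2 * M) (hM0 : 0 < M)
    (hbig : 2 * (volume D).toReal / M <
      (volume (proj D)).toReal + 2 * (volume {y | M < len D y}).toReal) :
    0 < ∫ y, psi M (len D y) := by
  have hmN : MeasurableSet (proj D) := (proj_compact hD).isClosed.measurableSet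
  have hmH := measurableSet_H hD M
  have iN : Integrable ((proj D).indicator fun _ => (1 : ℝ)) := by
    rw [integrable_indicator_iff hmN]
    exact integrableOn_const (proj_compact hD).measure_lt_top.ne
  have iH : Integrable ({y | M < len D y}.indicator fun _ => (2 : ℝ)) := by
    rw [integrable_indicator_iff hmH]
    exact integrableOn_const (H_fin hD hM0)
  have iL : Integrable fun y => 2 * (len D y / M) := ((integrable_len hD).div_const M).const_mul 2
  set G : P2 → ℝ := fun y => (proj D).indicator (fun _ => (1 : ℝ)) y +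
    {y | M < len D y}.indicator (fun _ => (2 : ℝ)) y - 2 * (len D y / M) with hG
  have iG : Integrable G := (iN.add iH).sub iL
  have eG : ∫ y, G y = (volume (proj D)).toReal + 2 * (volume {y | M < len D y}).toReal -
      2 * (volume D).toReal / M := by
    have h1 : ∫ y, G y = (∫ y, ((proj D).indicator (fun _ => (1 : ℝ)) y +
        {y | M < len D y}.indicator (fun _ => (2 : ℝ)) y)) - ∫ y, 2 * (len D y / M) :=
      integral_sub (iN.add iH) iL
    rw [h1, integral_add iN iH, integral_indicator hmN,
      integral_indicator hmH, setIntegral_const, setIntegral_const, integral_const_mul, integral_div,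
      integral_len hD]
    simp only [Measure.real, smul_eq_mul]
    ring
  have h1 := plane hD hM hM0
  have e2 : ∀ y, (if y ∈ proj D ∧ len D y / M ≤ 1 then 2 * (len D y / M) + (len D y / M) ^ 4 - 1 else 0) =
      psi M (len D y) - G y := by
    intro y
    have hle : len D y / M ≤ 1 ↔ ¬ M < len D y := by rw [div_le_one hM0, not_lt]
    by_cases h2 : M < len D y
    · have h3 : y ∈ proj D := H_subset hM0 h2
      have h4 : ¬ (y ∈ proj D ∧ len D y / M ≤ 1) := fun h => (hle.1 h.2) h2
      rw [if_neg h4]
      simp only [hG, psi]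
      rw [if_pos h2, Set.indicator_of_mem h3, Set.indicator_of_mem (show y ∈ {y | M < len D y} from h2)]
      ring
    · by_cases h3 : y ∈ proj D
      · rw [if_pos ⟨h3, hle.2 h2⟩]
        simp only [hG, psi]
        rw [if_neg h2, Set.indicator_of_mem h3,
          Set.indicator_of_notMem (show y ∉ {y | M < len D y} from h2)]
        ring
      · rw [if_neg (fun h => h3 h.1)]
        simp only [hG, psi]
        rw [if_neg h2, Set.indicator_of_notMem h3,
          Set.indicator_of_notMem (show y ∉ {y | M < len D y} from h2), len_off h3]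
        simp
  simp only [e2] at h1
  rw [integral_sub (integrable_psi hD hM0) iG, eG] at h1
  linarith

theorem int_inner {M L : ℝ} (hM0 : 0 < M) (hL : 0 ≤ L) :
    2 * (∫ s in (0:ℝ)..M, s ^ 2 * max (L - s) 0) - M ^ 3 * max (L - M) 0 = M ^ 4 / 6 * psi M L := by
  unfold psi
  by_cases h : M < L
  · have e : ∫ s in (0:ℝ)..M, s ^ 2 * max (L - s) 0 = ∫ s in (0:ℝ)..M, (L * s ^ 2 - s ^ 3) := by
      refine intervalIntegral.integral_congr fun s hs => ?_
      rw [Set.uIcc_of_le hM0.le] at hs
      change s ^ 2 * max (L - s) 0 = L * s ^ 2 - s ^ 3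
      rw [max_eq_left (by linarith [hs.2])]
      ring
    rw [e, intervalIntegral.integral_sub (by apply Continuous.intervalIntegrable; fun_prop)
      (by apply Continuous.intervalIntegrable; fun_prop), intervalIntegral.integral_const_mul,
      integral_pow, integral_pow, if_pos h, max_eq_left (by linarith)]
    field_simp
    ring
  · push Not at h
    have i1 : IntervalIntegrable (fun s : ℝ => s ^ 2 * max (L - s) 0) volume 0 L := by
      apply Continuous.intervalIntegrable
      fun_prop
    have i2 : IntervalIntegrable (fun s : ℝ => s ^ 2 * max (L - s) 0) volume L M := by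
      apply Continuous.intervalIntegrable
      fun_prop
    rw [← intervalIntegral.integral_add_adjacent_intervals i1 i2]
    have e1 : ∫ s in (0:ℝ)..L, s ^ 2 * max (L - s) 0 = ∫ s in (0:ℝ)..L, (L * s ^ 2 - s ^ 3) := by
      refine intervalIntegral.integral_congr fun s hs => ?_
      rw [Set.uIcc_of_le hL] at hs
      change s ^ 2 * max (L - s) 0 = L * s ^ 2 - s ^ 3
      rw [max_eq_left (by linarith [hs.2])]
      ring
    have e2 : ∫ s in L..M, s ^ 2 * max (L - s) 0 = 0 := by
      have : ∫ s in L..M, s ^ 2 * max (L - s) 0 = ∫ s in L..M, (0 : ℝ) := by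
        refine intervalIntegral.integral_congr fun s hs => ?_
        rw [Set.uIcc_of_le h] at hs
        change s ^ 2 * max (L - s) 0 = 0
        rw [max_eq_right (by linarith [hs.1]), mul_zero]
      rw [this]
      simp
    rw [e1, e2, intervalIntegral.integral_sub (by apply Continuous.intervalIntegrable; fun_prop)
      (by apply Continuous.intervalIntegrable; fun_prop), intervalIntegral.integral_const_mul,
      integral_pow, integral_pow, if_neg (not_lt.2 h), max_eq_right (by linarith)]
    field_simp
    ring

/-- The covariogram in one direction. -/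
theorem cov {D : Set E3} (hD : IsConvexBody D) {M : ℝ} (hM0 : 0 < M) :
    2 * (∫ s in (0:ℝ)..M, s ^ 2 * ∫ y, max (len D y - s) 0) - M ^ 3 * ∫ y, max (len D y - M) 0 =
      M ^ 4 / 6 * ∫ y, psi M (len D y) := by
  obtain ⟨C, hC⟩ := len_bounded hD
  have hN := proj_compact hD
  have hmN : MeasurableSet (proj D) := hN.isClosed.measurableSet
  have hC0 : 0 ≤ C := (len_nonneg D 0).trans (hC 0)
  have hoff : ∀ s : ℝ, 0 ≤ s → ∀ y, y ∉ proj D → max (len D y - s) 0 = 0 := by
    intro s hs y hy
    rw [len_off hy, max_eq_right (by linarith)]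
  have iM : Integrable fun y => max (len D y - M) 0 := by
    refine integrable_comp hD (ψ := fun t => max (t - M) 0) (by fun_prop) (max_eq_right (by linarith)) (C := C) ?_
    intro y
    have h1 := hC y
    rw [abs_of_nonneg (le_max_right _ _)]
    exact max_le (by linarith) (by linarith)
  have hres : ∀ s : ℝ, 0 ≤ s → ∫ y, max (len D y - s) 0 = ∫ y in proj D, max (len D y - s) 0 :=
    fun s hs => (setIntegral_eq_integral_of_forall_compl_eq_zero (hoff s hs)).symm
  have hmeas : Measurable fun p : ℝ × P2 => p.1 ^ 2 * max (len D p.2 - p.1) 0 := by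
    have h1 : Measurable fun p : ℝ × P2 => len D p.2 := (measurable_len hD).comp measurable_snd
    exact (measurable_fst.pow_const 2).mul ((h1.sub measurable_fst).max measurable_const)
  have : IsFiniteMeasure (volume.restrict (proj D)) := isFiniteMeasure_restrict.2 hN.measure_lt_top.ne
  have iP : Integrable (fun p : ℝ × P2 => p.1 ^ 2 * max (len D p.2 - p.1) 0)
      ((volume.restrict (Set.Ioc 0 M)).prod (volume.restrict (proj D))) := by
    refine Integrable.of_bound hmeas.aestronglyMeasurable (M ^ 2 * C) ?_
    rw [Measure.prod_restrict]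
    refine (ae_restrict_iff' (measurableSet_Ioc.prod hmN)).2 (Filter.Eventually.of_forall ?_)
    rintro ⟨s, y⟩ ⟨h3, -⟩
    simp only
    rw [norm_mul, Real.norm_of_nonneg (sq_nonneg s), Real.norm_of_nonneg (le_max_right _ _)]
    refine mul_le_mul (pow_le_pow_left₀ h3.1.le h3.2 2) ?_ (le_max_right _ _) (sq_nonneg M)
    have h3' : (0:ℝ) < s := h3.1
    exact max_le (by linarith [hC y]) hC0
  have e1 : ∫ s in (0:ℝ)..M, s ^ 2 * ∫ y, max (len D y - s) 0 =
      ∫ y, ∫ s in (0:ℝ)..M, s ^ 2 * max (len D y - s) 0 := by
    rw [intervalIntegral.integral_of_le hM0.le]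
    have e2 : ∫ s in Set.Ioc 0 M, s ^ 2 * ∫ y, max (len D y - s) 0 =
        ∫ s in Set.Ioc 0 M, ∫ y in proj D, s ^ 2 * max (len D y - s) 0 := by
      refine setIntegral_congr_fun measurableSet_Ioc fun s hs => ?_
      change s ^ 2 * ∫ y, max (len D y - s) 0 = ∫ y in proj D, s ^ 2 * max (len D y - s) 0
      rw [hres s hs.1.le, integral_const_mul]
    rw [e2, integral_integral_swap iP]
    have e3 : ∀ y, y ∉ proj D → ∫ s in (0:ℝ)..M, s ^ 2 * max (len D y - s) 0 = 0 := by
      intro y hy
      have : ∫ s in (0:ℝ)..M, s ^ 2 * max (len D y - s) 0 = ∫ s in (0:ℝ)..M, (0 : ℝ) := by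
        refine intervalIntegral.integral_congr fun s hs => ?_
        rw [Set.uIcc_of_le hM0.le] at hs
        change s ^ 2 * max (len D y - s) 0 = 0
        rw [hoff s hs.1 y hy, mul_zero]
      rw [this]
      simp
    rw [← setIntegral_eq_integral_of_forall_compl_eq_zero (s := proj D) e3]
    refine setIntegral_congr_fun hmN fun y _ => ?_
    exact (intervalIntegral.integral_of_le hM0.le).symm
  have hin : ∀ y, 2 * (∫ s in (0:ℝ)..M, s ^ 2 * max (len D y - s) 0) =
      M ^ 3 * max (len D y - M) 0 + M ^ 4 / 6 * psi M (len D y) := by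
    intro y
    have := int_inner hM0 (len_nonneg D y)
    linarith
  rw [e1, ← integral_const_mul]
  simp only [hin]
  rw [integral_add (iM.const_mul _) ((integrable_psi hD hM0).const_mul _), integral_const_mul,
    integral_const_mul]
  ring

/-- The main estimate in one direction. -/
theorem cov_pos {D : Set E3} (hD : IsConvexBody D) {M : ℝ} (hM : len D 0 = 2 * M) (hM0 : 0 < M)
    (hbig : 2 * (volume D).toReal / M <
      (volume (proj D)).toReal + 2 * (volume {y | M < len D y}).toReal) :
    M ^ 3 * ∫ y, max (len D y - M) 0 < 2 * ∫ s in (0:ℝ)..M, s ^ 2 * ∫ y, max (len D y - s) 0 := by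
  have h1 := cov hD hM0
  have h2 := dir_pos hD hM hM0 hbig
  have h3 : 0 < M ^ 4 / 6 * ∫ y, psi M (len D y) := mul_pos (by positivity) h2
  linarith

end Pool.Agent.Helper33.SY
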