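import Pool.Agent.Helper33.SY.Dir
import Pool.Agent.Helper33.SY.Column
import Pool.Agent.Helper37.SY.Defs

/-!
# The estimate in one direction and the lattice bounds in the notation of `Helper37.SY.Defs`
-/

set_option autoImplicit false
namespace Pool.Agent.Helper33.SY
open MeasureTheory Metric
open Pool.Agent.Helper59.Pack Pool.Agent.Helper69.MD Pool.Agent.Helper37.SY
open scoped ENNReal Pointwise

theorem dir_ineq {C : Set E3} (hC : IsConvexBody C)
    (h : 2 * (volume C).toReal <
      hh C * ((volume (proj C)).toReal + 2 * (volume (up C)).toReal)) :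
    hh C ^ 3 * gg C (hh C) < 2 * ∫ s in (0 : ℝ)..hh C, s ^ 2 * gg C s := by
  have h0 : 0 ≤ hh C := by
    unfold hh
    linarith [len_nonneg C 0]
  have hpos : 0 < hh C := by
    rcases h0.lt_or_eq with h1 | h1
    · exact h1
    · rw [← h1, zero_mul] at h
      have := ENNReal.toReal_nonneg (a := volume C)
      linarith
  have hM : len C 0 = 2 * hh C := by unfold hh; ring
  have hbig : 2 * (volume C).toReal / hh C <
      (volume (proj C)).toReal + 2 * (volume {y | hh C < len C y}).toReal := by
    rw [div_lt_iff₀ hpos]
    calc 2 * (volume C).toReal < _ := h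
      _ = _ := by unfold up; ring
  exact cov_pos hC hM hpos hbig

theorem deltaL_ge_diff {K : Set E3} (hK : IsConvexBody K) (d : LatData)
    (h : ∀ u ∈ d.lat, u ≠ 0 → u ∉ interior (K - K)) :
    volume K / ENNReal.ofReal (d.H * det2 d.t₁ d.t₂) ≤ deltaL K := by
  refine deltaL_ge_of hK d fun u hu h0 x hx y hy hxy => h u hu h0 ?_
  rw [← hxy]
  have h1 : interior K - interior K ⊆ interior (K - K) := by
    refine interior_maximal (Set.sub_subset_sub interior_subset interior_subset) ?_
    exact isOpen_interior.sub_left
  exact h1 (Set.sub_mem_sub hx hy)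

end Pool.Agent.Helper33.SY
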