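import Pool.Agent.Helper59.Pack.Key

/-!
# An inequality for concave functions on rays

For a convex body `D` in space with the vertical chord `2 M` over `0`, `l = len D / M`:
`0 ≤ ∫ (2 l + l ^ 4 - 1)` over the part of the projection where `l ≤ 1`.
-/

set_option autoImplicit false
namespace Pool.Agent.Helper33.SY
open MeasureTheory Metric
open Pool.Agent.Helper59.Pack Pool.Agent.Helper69.MD
open scoped ENNReal

theorem int_poly {b c : ℝ} (hbc : b < c) :
    ∫ r in Set.Ioc b c, r * (2 * ((c - r) / (c - b)) + ((c - r) / (c - b)) ^ 4 - 1) =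
      (c - b) * (b / 5 - 2 * (c - b) / 15) := by
  have hw : c - b ≠ 0 := (sub_pos.2 hbc).ne'
  rw [← intervalIntegral.integral_of_le hbc.le]
  have hd : ∀ r ∈ Set.uIcc b c, HasDerivAt (fun r : ℝ =>
      -(c * ((c - r) ^ 2 / (c - b) + (c - r) ^ 5 / (5 * (c - b) ^ 4) - (c - r)) -
        (2 * (c - r) ^ 3 / (3 * (c - b)) + (c - r) ^ 6 / (6 * (c - b) ^ 4) - (c - r) ^ 2 / 2)))
      (r * (2 * ((c - r) / (c - b)) + ((c - r) / (c - b)) ^ 4 - 1)) r := by
    intro r _
    have h1 : HasDerivAt (fun r : ℝ => c - r) (-1) r := by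
      simpa using (hasDerivAt_id r).const_sub c
    have h2 := (h1.pow 2).div_const (c - b)
    have h3 := (h1.pow 5).div_const (5 * (c - b) ^ 4)
    have h4 := ((h1.pow 3).const_mul 2).div_const (3 * (c - b))
    have h5 := (h1.pow 6).div_const (6 * (c - b) ^ 4)
    have h6 := (h1.pow 2).div_const 2
    have h := ((((h2.add h3).sub h1).const_mul c).sub ((h4.add h5).sub h6)).neg
    refine HasDerivAt.congr_deriv (h.congr_of_eventuallyEq (Filter.Eventually.of_forall fun x => ?_)) ?_
    · simp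
    · simp
      field_simp
      ring
  rw [intervalIntegral.integral_eq_sub_of_hasDerivAt hd
    (by apply Continuous.intervalIntegrable; fun_prop)]
  field_simp
  ring

open Classical in
theorem ray {S : Set ℝ} {g : ℝ → ℝ} (hS0 : (0 : ℝ) ∈ S) (hSnn : ∀ r ∈ S, 0 ≤ r)
    (hSc : Convex ℝ S) (hScomp : IsCompact S) (hg0 : g 0 = 2) (hgnn : ∀ r ∈ S, 0 ≤ g r)
    (hconc : ConcaveOn ℝ S g) (hcl : ∀ u, 0 < u → IsClosed {r | r ∈ S ∧ u ≤ g r}) :
    0 ≤ ∫ r in Set.Ioi (0 : ℝ), r * (if r ∈ S ∧ g r ≤ 1 then 2 * g r + g r ^ 4 - 1 else 0) := by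
  have hcompu : IsCompact {r | r ∈ S ∧ 1 ≤ g r} :=
    hScomp.of_isClosed_subset (hcl 1 one_pos) (fun r hr => hr.1)
  obtain ⟨b, hbS, hbmax⟩ := hcompu.exists_isGreatest ⟨0, hS0, by rw [hg0]; norm_num⟩
  obtain ⟨c, hcS, hcmax⟩ := hScomp.exists_isGreatest ⟨0, hS0⟩
  have hb0 : 0 ≤ b := hSnn b hbS.1
  have hbc : b ≤ c := hcmax hbS.1
  have hc0 : 0 ≤ c := hSnn c hcS
  have hseg : ∀ r, 0 ≤ r → r ≤ c → r ∈ S := fun r h0 h1 => hSc.ordConnected.out hS0 hcS ⟨h0, h1⟩
  have hcb : c ≤ 2 * b := by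
    have h1 : c / 2 ≤ b := by
      apply hbmax
      refine ⟨hseg _ (by linarith) (by linarith), ?_⟩
      have h2 := hconc.2 hS0 hcS (show (0 : ℝ) ≤ 1 / 2 by norm_num) (show (0 : ℝ) ≤ 1 / 2 by norm_num)
        (by norm_num)
      simp only [smul_eq_mul, mul_zero, zero_add, hg0] at h2
      have h3 := hgnn c hcS
      have h4 : (1 : ℝ) / 2 * c = c / 2 := by ring
      rw [h4] at h2
      linarith
    linarith
  set F : ℝ → ℝ := fun r => if r ∈ S ∧ g r ≤ 1 then 2 * g r + g r ^ 4 - 1 else 0 with hF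
  change 0 ≤ ∫ r in Set.Ioi (0 : ℝ), r * F r
  by_cases hint : IntegrableOn (fun r => r * F r) (Set.Ioi (0 : ℝ))
  swap
  · rw [integral_undef hint]
  have i2 : IntegrableOn (fun r => r * F r) (Set.Ioc 0 b) := hint.mono_set (fun r hr => hr.1)
  have i3 : IntegrableOn (fun r => r * F r) (Set.Ioc b c) :=
    hint.mono_set (fun r hr => lt_of_le_of_lt hb0 hr.1)
  have i4 : IntegrableOn (fun r => r * F r) (Set.Ioi c) :=
    hint.mono_set (fun r hr => lt_of_le_of_lt hc0 hr)
  have e1 : Set.Ioi (0 : ℝ) = Set.Ioc 0 c ∪ Set.Ioi c := (Set.Ioc_union_Ioi_eq_Ioi hc0).symm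
  have e2 : Set.Ioc 0 c = Set.Ioc 0 b ∪ Set.Ioc b c := (Set.Ioc_union_Ioc_eq_Ioc hb0 hbc).symm
  have hd1 : Disjoint (Set.Ioc (0 : ℝ) c) (Set.Ioi c) :=
    Set.disjoint_left.2 (fun x hx hx' => absurd hx.2 (not_le.2 hx'))
  have hd2 : Disjoint (Set.Ioc (0 : ℝ) b) (Set.Ioc b c) :=
    Set.disjoint_left.2 (fun x hx hx' => absurd hx.2 (not_le.2 hx'.1))
  have j1 : IntegrableOn (fun r => r * F r) (Set.Ioc 0 c) := by rw [e2]; exact i2.union i3
  have hzero : ∫ r in Set.Ioi c, r * F r = 0 := by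
    apply setIntegral_eq_zero_of_forall_eq_zero
    intro r hr
    have hrS : r ∉ S := fun h => absurd (hcmax h) (not_le.2 hr)
    rw [hF]
    simp only
    rw [if_neg (fun h => hrS h.1), mul_zero]
  rw [e1, setIntegral_union hd1 measurableSet_Ioi j1 i4, hzero, add_zero, e2,
    setIntegral_union hd2 measurableSet_Ioc i2 i3]
  have l1 : 0 ≤ ∫ r in Set.Ioc 0 b, r * F r := by
    apply setIntegral_nonneg measurableSet_Ioc
    intro r hr
    refine mul_nonneg hr.1.le ?_
    have hrS := hseg r hr.1.le (hr.2.trans hbc)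
    have hbp : 0 < b := lt_of_lt_of_le hr.1 hr.2
    have h1 := chord_le hconc hS0 hbS.1 (p := 2) (q := 1) hg0.ge hbS.2 hr.1.le hr.2 hbp
    have hge : 1 ≤ g r := by
      refine le_trans ?_ h1
      unfold chord
      have h2 : (r - 0) / (b - 0) ≤ 1 := by
        rw [sub_zero, sub_zero]
        exact (div_le_one hbp).2 hr.2
      linarith
    rw [hF]
    simp only
    split_ifs with h
    · have h3 : g r = 1 := le_antisymm h.2 hge
      rw [h3]
      norm_num
    · exact le_rfl
  have l2 : 0 ≤ ∫ r in Set.Ioc b c, r * F r := by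
    rcases hbc.lt_or_eq with hlt | heq
    · have hci : IntegrableOn (fun r => r * (2 * ((c - r) / (c - b)) + ((c - r) / (c - b)) ^ 4 - 1))
          (Set.Ioc b c) := by
        apply IntegrableOn.mono_set _ Set.Ioc_subset_Icc_self
        apply Continuous.integrableOn_Icc
        fun_prop
      have h1 : ∫ r in Set.Ioc b c, r * (2 * ((c - r) / (c - b)) + ((c - r) / (c - b)) ^ 4 - 1) ≤
          ∫ r in Set.Ioc b c, r * F r := by
        refine setIntegral_mono_on hci i3 measurableSet_Ioc (fun r hr => ?_)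
        refine mul_le_mul_of_nonneg_left ?_ (hb0.trans hr.1.le)
        have hrS := hseg r (hb0.trans hr.1.le) hr.2
        have h2 := chord_le hconc hbS.1 hcS (p := 1) (q := 0) hbS.2 (hgnn c hcS) hr.1.le hr.2 hlt
        have hlt1 : g r < 1 := by
          by_contra hcon
          push Not at hcon
          exact absurd (hbmax ⟨hrS, hcon⟩) (not_le.2 hr.1)
        have hw : 0 < c - b := sub_pos.2 hlt
        have h3 : chord b c 1 0 r = (c - r) / (c - b) := by
          unfold chord
          field_simp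
          ring
        rw [h3] at h2
        have h4 : 0 ≤ (c - r) / (c - b) := div_nonneg (by linarith [hr.2]) hw.le
        have h5 : ((c - r) / (c - b)) ^ 4 ≤ g r ^ 4 := pow_le_pow_left₀ h4 h2 4
        rw [hF]
        simp only
        rw [if_pos ⟨hrS, hlt1.le⟩]
        linarith
      refine le_trans ?_ h1
      rw [int_poly hlt]
      refine mul_nonneg (by linarith) ?_
      linarith
    · rw [heq]
      simp
  linarith

open Classical in
/-- The planar inequality. -/
theorem plane {D : Set E3} (hD : IsConvexBody D) {M : ℝ} (hM : len D 0 = 2 * M) (hM0 : 0 < M) :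
    0 ≤ ∫ y, (if y ∈ proj D ∧ len D y / M ≤ 1 then 2 * (len D y / M) + (len D y / M) ^ 4 - 1 else 0) := by
  apply plane_nonneg 0
  intro θ
  set e : P2 := ![Real.cos θ, Real.sin θ] with he
  set S : Set ℝ := {r | 0 ≤ r ∧ (0 : P2) + r • e ∈ proj D} with hS
  have hcQ : (0 : P2) ∈ proj D := by
    by_contra h
    rw [len_off h] at hM
    linarith
  have hγ : Continuous fun r : ℝ => (0 : P2) + r • e := by fun_prop
  have haff : ∀ (r r' α β : ℝ), α + β = 1 →
      (0 : P2) + (α • r + β • r') • e = α • ((0 : P2) + r • e) + β • ((0 : P2) + r' • e) := by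
    intro r r' α β _
    rw [zero_add, zero_add, zero_add, add_smul, smul_smul, smul_smul]
    rfl
  have hSc : Convex ℝ S := by
    intro r hr r' hr' α β hα hβ hαβ
    refine ⟨add_nonneg (mul_nonneg hα hr.1) (mul_nonneg hβ hr'.1), ?_⟩
    rw [haff r r' α β hαβ]
    exact proj_convex hD hr.2 hr'.2 hα hβ hαβ
  have hSclosed : IsClosed S :=
    isClosed_Ici.inter ((proj_compact hD).isClosed.preimage hγ)
  have hScomp : IsCompact S := by
    apply Metric.isCompact_of_isClosed_isBounded hSclosed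
    obtain ⟨C, hC⟩ := (proj_compact hD).isBounded.subset_closedBall 0
    refine (Metric.isBounded_closedBall (x := (0 : ℝ)) (r := 2 * C)).subset ?_
    intro r hr
    have h1 := hC hr.2
    rw [mem_closedBall, dist_eq_norm, zero_add, sub_zero] at h1
    have h2 : ∀ i, |(r • e) i| ≤ C := fun i => (norm_le_pi_norm (r • e) i).trans h1
    have h3 := h2 0
    have h4 := h2 1
    simp only [Pi.smul_apply, smul_eq_mul, he, Matrix.cons_val_zero, Matrix.cons_val_one] at h3 h4
    have hC0 : 0 ≤ C := (abs_nonneg _).trans h3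
    have h5 : (r * Real.cos θ) ^ 2 ≤ C ^ 2 := by
      rw [← sq_abs]; exact pow_le_pow_left₀ (abs_nonneg _) h3 2
    have h6 : (r * Real.sin θ) ^ 2 ≤ C ^ 2 := by
      rw [← sq_abs]; exact pow_le_pow_left₀ (abs_nonneg _) h4 2
    have h7 : r ^ 2 = (r * Real.cos θ) ^ 2 + (r * Real.sin θ) ^ 2 := by
      have := Real.sin_sq_add_cos_sq θ
      linear_combination (-r ^ 2) * this
    rw [mem_closedBall_zero_iff, Real.norm_eq_abs, abs_of_nonneg hr.1]
    nlinarith [hr.1]
  have hmain := ray (S := S) (g := fun r => len D ((0 : P2) + r • e) / M)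
    ⟨le_rfl, by simpa using hcQ⟩ (fun r hr => hr.1) hSc hScomp
    (by
      simp only [zero_smul, add_zero]
      rw [hM]
      field_simp)
    (fun r _ => div_nonneg (len_nonneg _ _) hM0.le)
    (by
      refine ⟨hSc, ?_⟩
      intro r hr r' hr' α β hα hβ hαβ
      have h1 := (len_concave hD).2 hr.2 hr'.2 hα hβ hαβ
      rw [← haff r r' α β hαβ] at h1
      simp only [smul_eq_mul] at h1 ⊢
      rw [← mul_div_assoc, ← mul_div_assoc, ← add_div]
      exact div_le_div_of_nonneg_right h1 hM0.le)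
    (by
      intro u hu
      have e1 : {r | r ∈ S ∧ u ≤ len D ((0 : P2) + r • e) / M} =
          Set.Ici 0 ∩ (fun r : ℝ => (0 : P2) + r • e) ⁻¹' {y | u * M ≤ len D y} := by
        ext r
        simp only [hS, Set.mem_ofPred_eq, Set.mem_inter_iff, Set.mem_Ici, Set.mem_preimage]
        rw [le_div_iff₀ hM0]
        constructor
        · rintro ⟨⟨h1, -⟩, h2⟩
          exact ⟨h1, h2⟩
        · rintro ⟨h1, h2⟩
          refine ⟨⟨h1, ?_⟩, h2⟩
          by_contra h3
          rw [len_off h3] at h2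
          have := mul_pos hu hM0
          linarith
      rw [e1]
      exact isClosed_Ici.inter ((superlevel_compact hD (mul_pos hu hM0)).isClosed.preimage hγ))
  refine le_of_le_of_eq hmain ?_
  apply setIntegral_congr_fun measurableSet_Ioi
  intro r hr
  have hr0 : (0 : ℝ) ≤ r := le_of_lt hr
  have : (r ∈ S) ↔ ((0 : P2) + r • e ∈ proj D) := ⟨fun h => h.2, fun h => ⟨hr0, h⟩⟩
  simp only [this]

end Pool.Agent.Helper33.SY
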